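import Pool.Agent.H319Z.Stir.Main

open MeasureTheory Pool.Agent.H319Z.Stir

namespace Pool.Agent.Results.MP_668046_pr.ANotSharp

/-- There is a countable connected graph of bounded degree, on which the random stirring model is
well defined, and `0 < T₁ < T₂` such that almost surely some cycle is infinite at `T₁`, while
`T₂` does not have this property (indeed almost surely all cycles are finite at `T₂`). -/
theorem result : ∃ (V : Type) (_ : Countable V) (G : SimpleGraph V), G.Connected ∧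
    (∃ Δ : ℕ, ∀ v, (G.neighborSet v).Finite ∧ (G.neighborSet v).ncard ≤ Δ) ∧ WellDefined G ∧
    ∃ T₁ T₂ : ℝ, 0 < T₁ ∧ T₁ < T₂ ∧ T₁ ∈ infTimes G ∧ T₂ ∉ infTimes G ∧
      ∀ᵐ ω ∂(law V), ∀ v, (cycle G T₂ ω v).Finite := by
  obtain ⟨D, J, M, T₁, T₂, h1, h2, h3, h4⟩ := main
  refine ⟨VT D J M, inferInstance, GG D J M, connected, ⟨_, fun v => ⟨nbr_finite v, nbr_card v⟩⟩,
    wellDefined nbr_finite nbr_card, T₁, T₂, h1, h2, h3, fun h => ?_, h4⟩
  have : IsProbabilityMeasure (law (VT D J M)) := by rw [law_eq]; infer_instance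
  obtain ⟨ω, h5, v, h6⟩ := (h4.and h.2).exists
  exact h6 (h5 v)

end Pool.Agent.Results.MP_668046_pr.ANotSharp
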